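import Pool.Agent.Q33.Del.Rec

/-! Z.-W. Sun's congruence modulo `p^3` for alternating sums of fourth powers of Delannoy
polynomials. -/

namespace Pool.Agent.Results.MP_c45f9b_nt.FourthPowers

open Finset

/-- Delannoy polynomial `D_n(x) = ∑_k C(n,k) C(n+k,k) x^k` at an integer. -/
def D (n : ℕ) (x : ℤ) : ℤ :=
  ∑ k ∈ range (n + 1), (n.choose k : ℤ) * ((n + k).choose k : ℤ) * x ^ k

/-- `S_p(x) = ∑_{k<p} (-1)^k (2k+1) D_k(x)^4` -/
def S (p : ℕ) (x : ℤ) : ℤ := ∑ k ∈ range p, (-1) ^ k * (2 * (k : ℤ) + 1) * D k x ^ 4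

/-- `T_p(x) = ∑_{k ≤ (p-1)/2} (-1)^k C(2k,k)^2 (x^2+x)^k (2x+1)^(2k)` -/
def T (p : ℕ) (x : ℤ) : ℤ :=
  ∑ k ∈ range ((p - 1) / 2 + 1),
    (-1) ^ k * ((2 * k).choose k : ℤ) ^ 2 * (x ^ 2 + x) ^ k * (2 * x + 1) ^ (2 * k)

open Pool.Agent.Q33.Del (b E choose_mul_succ_right mul_expand D_sq alt_sum)

theorem D_lib (n : ℕ) (x : ℤ) : D n x = Pool.Agent.Q33.Del.D n x := rfl

/-- `X_l = C(p-1,l) C(p+l,l)` -/
def X (p l : ℕ) : ℤ := ((p - 1).choose l : ℤ) * ((p + l).choose l : ℤ)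

theorem coprime_sq {p : ℕ} (hp : p.Prime) {l : ℕ} (h0 : 0 < l) (h : l < p) (a : ℤ)
    (hd : (p : ℤ) ^ 2 ∣ (l : ℤ) ^ 2 * a) : (p : ℤ) ^ 2 ∣ a := by
  have hc : IsCoprime ((p : ℤ) ^ 2) ((l : ℤ) ^ 2) := by
    apply IsCoprime.pow
    rw [Nat.isCoprime_iff_coprime]
    exact (Nat.Prime.coprime_iff_not_dvd hp).2 (Nat.not_dvd_of_pos_of_lt h0 h)
  exact hc.dvd_of_dvd_mul_left hd

theorem X_congr {p : ℕ} (hp : p.Prime) (l : ℕ) (hl : l < p) : (p : ℤ) ^ 2 ∣ X p l - (-1) ^ l := by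
  induction l with
  | zero => simp [X]
  | succ l ih =>
    have h1 := choose_mul_succ_right (p - 1) l
    have h2 : ((p + (l + 1)).choose (l + 1) : ℤ) * ((l : ℤ) + 1)
        = ((p + l).choose l : ℤ) * ((p : ℤ) + l + 1) := by
      have := Nat.add_one_mul_choose_eq (p + l) l
      rw [show p + (l + 1) = p + l + 1 by ring]
      have h : (((p + l + 1) * (p + l).choose l : ℕ) : ℤ)
          = (((p + l + 1).choose (l + 1) * (l + 1) : ℕ) : ℤ) := by
        exact_mod_cast this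
      push_cast at h
      linear_combination -h
    have hp1 : ((p - 1 : ℕ) : ℤ) = (p : ℤ) - 1 := by
      have := hp.one_lt
      push_cast [Nat.cast_sub (show 1 ≤ p by omega)]
      ring
    rw [hp1] at h1
    have h3 : ((l + 1 : ℕ) : ℤ) ^ 2 * (X p (l + 1) + X p l) = (p : ℤ) ^ 2 * X p l := by
      unfold X
      push_cast
      linear_combination ((p + (l + 1)).choose (l + 1) : ℤ) * ((l : ℤ) + 1) * h1
        + ((p - 1).choose l : ℤ) * ((p : ℤ) - 1 - l) * h2
    have h4 : (p : ℤ) ^ 2 ∣ X p (l + 1) + X p l := by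
      apply coprime_sq hp (Nat.succ_pos l) hl
      rw [h3]
      exact Dvd.intro _ rfl
    have h5 := dvd_sub h4 (ih (by omega))
    have h6 : X p (l + 1) - (-1) ^ (l + 1) = X p (l + 1) + X p l - (X p l - (-1) ^ l) := by
      rw [pow_succ]
      ring
    rw [h6]
    exact h5

theorem alt_vand (n a r : ℕ) :
    ∑ m ∈ range (n + 1), (-1 : ℤ) ^ m * (n.choose m : ℤ) * ((a + m).choose (r + n) : ℤ)
      = (-1) ^ n * (a.choose r : ℤ) := by
  induction n generalizing a r with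
  | zero => simp
  | succ n ih =>
    have h1 := ih (a + 1) (r + 1)
    have h2 := ih a (r + 1)
    rw [sum_range_succ']
    have h3 : ∑ m ∈ range (n + 1), (-1 : ℤ) ^ (m + 1) * ((n + 1).choose (m + 1) : ℤ)
        * ((a + (m + 1)).choose (r + (n + 1)) : ℤ)
        = -∑ m ∈ range (n + 1), (-1 : ℤ) ^ m * (n.choose m : ℤ) * ((a + 1 + m).choose (r + 1 + n) : ℤ)
          + ∑ m ∈ range (n + 1), (-1 : ℤ) ^ (m + 1) * (n.choose (m + 1) : ℤ)
            * ((a + (m + 1)).choose (r + 1 + n) : ℤ) := by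
      rw [← sum_neg_distrib, ← sum_add_distrib]
      refine sum_congr rfl fun m _ => ?_
      rw [Nat.choose_succ_succ n m, show a + 1 + m = a + (m + 1) by ring,
        show r + (n + 1) = r + 1 + n by ring]
      push_cast
      rw [pow_succ]
      ring
    have h4 : ∑ m ∈ range (n + 1), (-1 : ℤ) ^ (m + 1) * (n.choose (m + 1) : ℤ)
            * ((a + (m + 1)).choose (r + 1 + n) : ℤ) + (a.choose (r + 1 + n) : ℤ)
        = (-1) ^ n * (a.choose (r + 1) : ℤ) := by
      rw [← h2]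
      have := sum_range_succ' (fun m => (-1 : ℤ) ^ m * (n.choose m : ℤ) * ((a + m).choose (r + 1 + n) : ℤ)) (n + 1)
      simp only [pow_zero, Nat.choose_zero_right, Nat.cast_one, mul_one, add_zero, one_mul] at this
      rw [← this, sum_range_succ, Nat.choose_succ_self]
      simp
    rw [h3, h1]
    rw [Nat.choose_succ_succ a r]
    simp only [pow_zero, Nat.choose_zero_right, Nat.cast_one, mul_one, add_zero, one_mul]
    rw [show r + (n + 1) = r + 1 + n by ring]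
    push_cast
    rw [pow_succ]
    linear_combination h4

theorem E_split {i j l : ℕ} (h : i ≤ l) :
    E i j l = ((i + j).choose i : ℤ) * ((j.choose (l - i) : ℤ) * (l.choose j : ℤ)) := by
  have h1 : (i + j).choose l * l.choose i = (i + j).choose i * j.choose (l - i) := by
    rw [Nat.choose_mul h, Nat.add_sub_cancel_left]
  have h2 : ((i + j).choose l : ℤ) * (l.choose i : ℤ) = ((i + j).choose i : ℤ) * (j.choose (l - i) : ℤ) := by
    exact_mod_cast h1
  unfold E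
  linear_combination (l.choose j : ℤ) * h2

theorem Z_small {p i j : ℕ} (h : i + j < p) :
    ∑ l ∈ range p, (-1 : ℤ) ^ l * E i j l = (-1) ^ (i + j) * ((i + j).choose i : ℤ) := by
  obtain ⟨q, rfl⟩ : ∃ q, p = i + (j + 1 + q) := ⟨p - i - j - 1, by omega⟩
  rw [sum_range_add, sum_range_add]
  have hz : ∑ l ∈ range i, (-1 : ℤ) ^ l * E i j l = 0 := by
    apply sum_eq_zero
    intro l hl
    rw [mem_range] at hl
    unfold E
    rw [Nat.choose_eq_zero_of_lt hl]
    simp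
  have hz2 : ∑ l ∈ range q, (-1 : ℤ) ^ (i + (j + 1 + l)) * E i j (i + (j + 1 + l)) = 0 := by
    apply sum_eq_zero
    intro l hl
    unfold E
    rw [Nat.choose_eq_zero_of_lt (show i + j < i + (j + 1 + l) by omega)]
    simp
  rw [hz, hz2, zero_add, add_zero]
  have h1 : ∀ m ∈ range (j + 1), (-1 : ℤ) ^ (i + m) * E i j (i + m)
      = (-1) ^ i * ((i + j).choose i : ℤ) * ((-1 : ℤ) ^ m * (j.choose m : ℤ) * ((i + m).choose (0 + j) : ℤ)) := by
    intro m _
    rw [E_split (Nat.le_add_right i m), Nat.add_sub_cancel_left, pow_add, zero_add]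
    ring
  rw [sum_congr rfl h1, ← mul_sum, alt_vand, Nat.choose_zero_right, pow_add]
  push_cast
  ring

theorem p_dvd_E {p i j : ℕ} (hp : p.Prime) (hi : i < p) (hj : j < p) (h : p ≤ i + j) (l : ℕ) :
    (p : ℤ) ∣ E i j l := by
  rcases Nat.lt_or_ge l i with h' | h'
  · unfold E
    rw [Nat.choose_eq_zero_of_lt h']
    simp
  · rw [E_split h']
    apply Dvd.dvd.mul_right
    exact_mod_cast hp.dvd_choose_add hi hj h

theorem p_dvd_central {p i : ℕ} (hp : p.Prime) (hi : i < p) (h : p ≤ 2 * i) :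
    (p : ℤ) ∣ ((2 * i).choose i : ℤ) := by
  have := hp.dvd_choose_add hi hi (by omega)
  rw [two_mul]
  exact_mod_cast this

/-- integer version of `A` -/
def A (N : ℕ) : ℤ :=
  ∑ i ∈ range (N + 1), (N.choose i : ℤ) * ((2 * i).choose i : ℤ) * ((2 * (N - i)).choose (N - i) : ℤ)

/-- integer version of `B` -/
def B (N : ℕ) : ℤ :=
  ∑ k ∈ range (N + 1), (-4) ^ (N - k) * ((2 * k).choose k : ℤ) ^ 2 * (k.choose (N - k) : ℤ)

theorem A_eq_B (N : ℕ) : A N = B N := by
  have h := (Pool.Agent.Q33.Del.A_eq_B N).1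
  have h1 : ((A N : ℤ) : ℚ) = Pool.Agent.Q33.Del.A N := by
    unfold A Pool.Agent.Q33.Del.A Pool.Agent.Q33.Del.F Pool.Agent.Q33.Del.c
    push_cast
    rfl
  have h2 : ((B N : ℤ) : ℚ) = Pool.Agent.Q33.Del.B N := by
    unfold B Pool.Agent.Q33.Del.B Pool.Agent.Q33.Del.g Pool.Agent.Q33.Del.c
    push_cast
    rfl
  rw [← h1, ← h2] at h
  exact_mod_cast h

/-- `u_j = C(2j,j) y^j` -/
def u (y : ℤ) (j : ℕ) : ℤ := ((2 * j).choose j : ℤ) * y ^ j

theorem S_eq {p : ℕ} (hp : p.Prime) (h2 : p ≠ 2) (x : ℤ) :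
    S p x = p * ∑ l ∈ range p, X p l
      * ∑ i ∈ range p, ∑ j ∈ range p, E i j l * (u (x ^ 2 + x) i * u (x ^ 2 + x) j) := by
  unfold S
  have h1 : ∀ k ∈ range p, (-1) ^ k * (2 * (k : ℤ) + 1) * D k x ^ 4
      = ∑ l ∈ range p, ((-1) ^ k * (2 * (k : ℤ) + 1) * b k l)
        * ∑ i ∈ range p, ∑ j ∈ range p, E i j l * (u (x ^ 2 + x) i * u (x ^ 2 + x) j) := by
    intro k hk
    rw [mem_range] at hk
    have h3 : D k x ^ 4 = (D k x ^ 2) * (D k x ^ 2) := by ring
    rw [h3, D_lib, D_sq hk]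
    have h4 := mul_expand k p hk (u (x ^ 2 + x)) (u (x ^ 2 + x))
    unfold u at h4 ⊢
    rw [h4, mul_sum]
    refine sum_congr rfl fun l _ => ?_
    ring
  rw [sum_congr rfl h1, sum_comm, mul_sum]
  refine sum_congr rfl fun l _ => ?_
  rw [← sum_mul]
  have h5 := alt_sum (p - 1) l
  have hp1 := hp.one_lt
  rw [show p - 1 + 1 = p by omega] at h5
  rw [h5]
  have hodd : Even (p - 1) := hp.even_sub_one h2
  rw [hodd.neg_one_pow]
  unfold X
  have hc : ((p - 1 : ℕ) : ℤ) = (p : ℤ) - 1 := by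
    push_cast [Nat.cast_sub (show 1 ≤ p by omega)]
    ring
  rw [hc]
  ring

theorem sum_mod {ι : Type*} (s : Finset ι) (f g : ι → ℤ) (m : ℤ) (h : ∀ i ∈ s, m ∣ f i - g i) :
    m ∣ ∑ i ∈ s, f i - ∑ i ∈ s, g i := by
  rw [← sum_sub_distrib]
  exact dvd_sum h

theorem main_left {p : ℕ} (hp : p.Prime) (y : ℤ) :
    (p : ℤ) ^ 2 ∣ ∑ l ∈ range p, X p l * ∑ i ∈ range p, ∑ j ∈ range p, E i j l * (u y i * u y j)
      - ∑ N ∈ range p, (-1) ^ N * y ^ N * A N := by
  have h1 : (p : ℤ) ^ 2 ∣ ∑ l ∈ range p, X p l * ∑ i ∈ range p, ∑ j ∈ range p, E i j l * (u y i * u y j)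
      - ∑ l ∈ range p, (-1) ^ l * ∑ i ∈ range p, ∑ j ∈ range p, E i j l * (u y i * u y j) := by
    apply sum_mod
    intro l hl
    rw [mem_range] at hl
    rw [← sub_mul]
    exact (X_congr hp l hl).mul_right _
  have h2 : ∑ l ∈ range p, (-1 : ℤ) ^ l * ∑ i ∈ range p, ∑ j ∈ range p, E i j l * (u y i * u y j)
      = ∑ i ∈ range p, ∑ j ∈ range p, (u y i * u y j) * ∑ l ∈ range p, (-1 : ℤ) ^ l * E i j l := by
    simp_rw [mul_sum]
    rw [sum_comm]
    refine sum_congr rfl fun i _ => ?_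
    rw [sum_comm]
    refine sum_congr rfl fun j _ => ?_
    refine sum_congr rfl fun l _ => ?_
    ring
  have h3 : (p : ℤ) ^ 2 ∣ ∑ i ∈ range p, ∑ j ∈ range p, (u y i * u y j) * ∑ l ∈ range p, (-1 : ℤ) ^ l * E i j l
      - ∑ i ∈ range p, ∑ j ∈ range p, (if i + j < p then (u y i * u y j) * ((-1) ^ (i + j) * ((i + j).choose i : ℤ)) else 0) := by
    apply sum_mod
    intro i hi
    apply sum_mod
    intro j hj
    rw [mem_range] at hi hj
    split_ifs with h
    · rw [Z_small h, sub_self]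
      exact dvd_zero _
    · rw [sub_zero, sq]
      apply mul_dvd_mul
      · have h' : p ≤ 2 * i ∨ p ≤ 2 * j := by omega
        rcases h' with h' | h'
        · unfold u
          exact ((p_dvd_central hp hi h').mul_right _).mul_right _
        · unfold u
          exact ((p_dvd_central hp hj h').mul_right _).mul_left _
      · apply dvd_sum
        intro l _
        exact (p_dvd_E hp hi hj (by omega) l).mul_left _
  have h4 : ∑ i ∈ range p, ∑ j ∈ range p, (if i + j < p then (u y i * u y j) * ((-1) ^ (i + j) * ((i + j).choose i : ℤ)) else 0)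
      = ∑ N ∈ range p, (-1) ^ N * y ^ N * A N := by
    have h5 : ∀ i ∈ range p, ∑ j ∈ range p, (if i + j < p then (u y i * u y j) * ((-1) ^ (i + j) * ((i + j).choose i : ℤ)) else 0)
        = ∑ j ∈ range (p - i), (u y i * u y j) * ((-1) ^ (i + j) * ((i + j).choose i : ℤ)) := by
      intro i hi
      symm
      apply sum_subset_zero_on_sdiff (range_subset_range.2 (Nat.sub_le p i))
      · intro j hj
        rw [mem_sdiff, mem_range, mem_range, not_lt] at hj
        rw [if_neg (by omega)]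
      · intro j hj
        rw [mem_range] at hj
        rw [if_pos (by omega)]
    rw [sum_congr rfl h5,
      ← sum_range_diag_flip p (fun i j => (u y i * u y j) * ((-1) ^ (i + j) * ((i + j).choose i : ℤ)))]
    refine sum_congr rfl fun N _ => ?_
    unfold A
    rw [mul_sum]
    refine sum_congr rfl fun i hi => ?_
    rw [mem_range] at hi
    obtain ⟨m, rfl⟩ := Nat.exists_eq_add_of_le (show i ≤ N by omega)
    rw [Nat.add_sub_cancel_left]
    unfold u
    rw [pow_add y]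
    ring
  rw [h2] at h1
  rw [h4] at h3
  have := dvd_add h1 h3
  rw [sub_add_sub_cancel] at this
  exact this

theorem main_right {p : ℕ} (hp : p.Prime) (h2 : p ≠ 2) (x : ℤ) :
    (p : ℤ) ^ 2 ∣ T p x - ∑ N ∈ range p, (-1) ^ N * (x ^ 2 + x) ^ N * B N := by
  have hodd : Even (p - 1) := hp.even_sub_one h2
  have hp1 := hp.one_lt
  have hhalf : (p - 1) / 2 * 2 = p - 1 := Nat.div_mul_cancel hodd.two_dvd
  set y := x ^ 2 + x with hy
  have h1 : (p : ℤ) ^ 2 ∣ ∑ k ∈ range p, ∑ m ∈ range (k + 1),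
        (-1) ^ k * ((2 * k).choose k : ℤ) ^ 2 * y ^ k * ((k.choose m : ℤ) * (4 * y) ^ m)
      - ∑ k ∈ range p, ∑ m ∈ range (p - k),
        (-1) ^ k * ((2 * k).choose k : ℤ) ^ 2 * y ^ k * ((k.choose m : ℤ) * (4 * y) ^ m) := by
    apply sum_mod
    intro k hk
    rw [mem_range] at hk
    rcases Nat.lt_or_ge (2 * k) p with h | h
    · have : ∑ m ∈ range (k + 1), (-1) ^ k * ((2 * k).choose k : ℤ) ^ 2 * y ^ k * ((k.choose m : ℤ) * (4 * y) ^ m)
          = ∑ m ∈ range (p - k), (-1) ^ k * ((2 * k).choose k : ℤ) ^ 2 * y ^ k * ((k.choose m : ℤ) * (4 * y) ^ m) := by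
        apply sum_subset (range_subset_range.2 (by omega))
        intro m _ hm
        rw [mem_range, not_lt] at hm
        rw [Nat.choose_eq_zero_of_lt (show k < m by omega)]
        simp
      rw [this, sub_self]
      exact dvd_zero _
    · have hd : (p : ℤ) ^ 2 ∣ ((2 * k).choose k : ℤ) ^ 2 := pow_dvd_pow_of_dvd (p_dvd_central hp hk h) 2
      apply dvd_sub
      · apply dvd_sum
        intro m _
        exact (((hd.mul_left _).mul_right _).mul_right _)
      · apply dvd_sum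
        intro m _
        exact (((hd.mul_left _).mul_right _).mul_right _)
  have h3 : ∑ k ∈ range p, ∑ m ∈ range (p - k),
        (-1) ^ k * ((2 * k).choose k : ℤ) ^ 2 * y ^ k * ((k.choose m : ℤ) * (4 * y) ^ m)
      = ∑ N ∈ range p, (-1) ^ N * y ^ N * B N := by
    rw [← sum_range_diag_flip p
      (fun k m => (-1) ^ k * ((2 * k).choose k : ℤ) ^ 2 * y ^ k * ((k.choose m : ℤ) * (4 * y) ^ m))]
    refine sum_congr rfl fun N _ => ?_
    unfold B
    rw [mul_sum]
    refine sum_congr rfl fun k hk => ?_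
    rw [mem_range] at hk
    obtain ⟨m, rfl⟩ := Nat.exists_eq_add_of_le (show k ≤ N by omega)
    rw [Nat.add_sub_cancel_left, pow_add y, pow_add (-1 : ℤ), mul_pow,
      show (-4 : ℤ) ^ m = (-1) ^ m * 4 ^ m by rw [← mul_pow]; norm_num]
    have hs : (-1 : ℤ) ^ m * (-1) ^ m = 1 := by rw [← mul_pow]; norm_num
    linear_combination (-(-1) ^ k * ((2 * k).choose k : ℤ) ^ 2 * y ^ k * (k.choose m : ℤ) * 4 ^ m * y ^ m) * hs
  have h4 : ∀ k, ∑ m ∈ range (k + 1), (-1) ^ k * ((2 * k).choose k : ℤ) ^ 2 * y ^ k * ((k.choose m : ℤ) * (4 * y) ^ m)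
      = (-1) ^ k * ((2 * k).choose k : ℤ) ^ 2 * y ^ k * (2 * x + 1) ^ (2 * k) := by
    intro k
    rw [← mul_sum, pow_mul, show (2 * x + 1) ^ 2 = 4 * y + 1 by rw [hy]; ring,
      add_pow (4 * y) 1 k]
    refine congrArg (fun z => (-1) ^ k * ((2 * k).choose k : ℤ) ^ 2 * y ^ k * z) ?_
    refine sum_congr rfl fun m _ => ?_
    rw [one_pow]
    ring
  have h5 : (p : ℤ) ^ 2 ∣ T p x
      - ∑ k ∈ range p, ∑ m ∈ range (k + 1), (-1) ^ k * ((2 * k).choose k : ℤ) ^ 2 * y ^ k * ((k.choose m : ℤ) * (4 * y) ^ m) := by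
    have h6 : ∑ k ∈ range p, ∑ m ∈ range (k + 1), (-1) ^ k * ((2 * k).choose k : ℤ) ^ 2 * y ^ k * ((k.choose m : ℤ) * (4 * y) ^ m)
        = T p x + ∑ k ∈ range ((p - 1) / 2), (-1) ^ ((p - 1) / 2 + 1 + k)
          * ((2 * ((p - 1) / 2 + 1 + k)).choose ((p - 1) / 2 + 1 + k) : ℤ) ^ 2
          * y ^ ((p - 1) / 2 + 1 + k) * (2 * x + 1) ^ (2 * ((p - 1) / 2 + 1 + k)) := by
      rw [sum_congr rfl (fun k _ => h4 k)]
      have h7 : p = ((p - 1) / 2 + 1) + (p - 1) / 2 := by omega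
      have h8 := sum_range_add (fun k => (-1) ^ k * ((2 * k).choose k : ℤ) ^ 2 * y ^ k * (2 * x + 1) ^ (2 * k))
        ((p - 1) / 2 + 1) ((p - 1) / 2)
      rw [← h7] at h8
      exact h8
    rw [h6, sub_add_cancel_left, dvd_neg]
    apply dvd_sum
    intro k hk
    rw [mem_range] at hk
    have hd : (p : ℤ) ^ 2 ∣ ((2 * ((p - 1) / 2 + 1 + k)).choose ((p - 1) / 2 + 1 + k) : ℤ) ^ 2 :=
      pow_dvd_pow_of_dvd (p_dvd_central hp (by omega) (by omega)) 2
    exact (((hd.mul_left _).mul_right _).mul_right _)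
  rw [h3] at h1
  have := dvd_add h5 h1
  rw [sub_add_sub_cancel] at this
  exact this

/-- **MP_c45f9b**: `S_p(x) ≡ p T_p(x) (mod p^3)` for every integer `x` and every odd prime `p`. -/
theorem result (x : ℤ) (p : ℕ) (hp : p.Prime) (h2 : p ≠ 2) :
    (p : ℤ) ^ 3 ∣ S p x - p * T p x := by
  rw [S_eq hp h2, ← mul_sub, show (p : ℤ) ^ 3 = p * (p : ℤ) ^ 2 by ring]
  apply mul_dvd_mul_left
  have h1 := main_left hp (x ^ 2 + x)
  have h3 := main_right hp h2 x
  have h4 : ∑ N ∈ range p, (-1) ^ N * (x ^ 2 + x) ^ N * A N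
      = ∑ N ∈ range p, (-1) ^ N * (x ^ 2 + x) ^ N * B N :=
    sum_congr rfl (fun N _ => by rw [A_eq_B N])
  rw [h4] at h1
  have := dvd_sub h1 h3
  rw [sub_sub_sub_cancel_right] at this
  exact this

end Pool.Agent.Results.MP_c45f9b_nt.FourthPowers
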